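import Mathlib
import Pool.Agent.W426.SM.Stm

/-!
# SM-RA, part 1: iterated derivatives of polynomial functions on real points
-/

set_option autoImplicit false

namespace Pool.Agent.W249.SM

open MvPolynomial

variable {n : ℕ}

/-- polynomial function on real points -/
noncomputable def Fn (P : MvPolynomial (Fin n) ℂ) (y : Fin n → ℝ) : ℂ :=
  MvPolynomial.eval (fun i => ((y i : ℝ) : ℂ)) P

theorem Fn_add (P Q : MvPolynomial (Fin n) ℂ) (y : Fin n → ℝ) :
    Fn (P + Q) y = Fn P y + Fn Q y := by simp [Fn]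

theorem Fn_mul (P Q : MvPolynomial (Fin n) ℂ) (y : Fin n → ℝ) :
    Fn (P * Q) y = Fn P y * Fn Q y := by simp [Fn]

/-- the derivative of a polynomial function -/
noncomputable def Dv (g : Fin n → ℂ) : (Fin n → ℝ) →L[ℝ] ℂ :=
  ∑ i, g i • (Complex.ofRealCLM.comp
    (ContinuousLinearMap.proj (R := ℝ) (φ := fun _ : Fin n => ℝ) i))

theorem Dv_apply (g : Fin n → ℂ) (v : Fin n → ℝ) : Dv g v = ∑ i, g i * ((v i : ℝ) : ℂ) := by
  unfold Dv
  rw [sum_apply]
  refine Finset.sum_congr rfl fun i _ => ?_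
  rfl

theorem hasFDerivAt_Fn (P : MvPolynomial (Fin n) ℂ) (x : Fin n → ℝ) :
    HasFDerivAt (Fn P) (Dv fun i => Fn (pderiv i P) x) x := by
  induction P using MvPolynomial.induction_on with
  | C a =>
    have h0 : (Dv fun i => Fn (pderiv i (C a : MvPolynomial (Fin n) ℂ)) x) = 0 := by
      ext v
      rw [Dv_apply]
      refine (Finset.sum_eq_zero fun i _ => ?_).trans rfl
      rw [pderiv_C]
      simp [Fn]
    rw [h0]
    have h1 : Fn (C a : MvPolynomial (Fin n) ℂ) = fun _ => a := by
      funext y; simp [Fn]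
    rw [h1]
    exact hasFDerivAt_const a x
  | add P Q hP hQ =>
    have h1 : Fn (P + Q) = fun y => Fn P y + Fn Q y := funext fun y => Fn_add P Q y
    rw [h1]
    refine (hP.add hQ).congr_fderiv ?_
    ext v
    show Dv _ v + Dv _ v = Dv _ v
    rw [Dv_apply, Dv_apply, Dv_apply, ← Finset.sum_add_distrib]
    refine Finset.sum_congr rfl fun i _ => ?_
    rw [map_add, Fn_add, add_mul]
  | mul_X P j hP =>
    have h1 : Fn (P * X j) = fun y => Fn P y * ((y j : ℝ) : ℂ) := by
      funext y; simp [Fn]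
    rw [h1]
    have h2 : HasFDerivAt (fun y : Fin n → ℝ => ((y j : ℝ) : ℂ))
        (Complex.ofRealCLM.comp (ContinuousLinearMap.proj (R := ℝ) (φ := fun _ : Fin n => ℝ) j)) x :=
      (Complex.ofRealCLM.comp
        (ContinuousLinearMap.proj (R := ℝ) (φ := fun _ : Fin n => ℝ) j)).hasFDerivAt
    refine (hP.mul h2).congr_fderiv ?_
    have h3 : ∀ i, Fn (pderiv i (P * X j)) x =
        Fn (pderiv i P) x * ((x j : ℝ) : ℂ) + (if i = j then Fn P x else 0) := by
      intro i
      rw [pderiv_mul, Fn_add, Fn_mul, Fn_mul, pderiv_X]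
      by_cases hij : i = j
      · subst hij; simp [Fn]
      · simp [Fn, hij, Ne.symm hij]
    ext v
    show Fn P x * ((v j : ℝ) : ℂ) + ((x j : ℝ) : ℂ) * Dv _ v = Dv _ v
    rw [Dv_apply, Dv_apply, Finset.mul_sum]
    have h4 : ∀ i, Fn (pderiv i (P * X j)) x * ((v i : ℝ) : ℂ) =
        ((x j : ℝ) : ℂ) * (Fn (pderiv i P) x * ((v i : ℝ) : ℂ)) +
        (if i = j then Fn P x * ((v i : ℝ) : ℂ) else 0) := by
      intro i
      rw [h3]
      split_ifs <;> ring
    rw [Finset.sum_congr rfl fun i _ => h4 i, Finset.sum_add_distrib,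
      Finset.sum_ite_eq' Finset.univ j, if_pos (Finset.mem_univ j), add_comm]

theorem fderiv_Fn_single (P : MvPolynomial (Fin n) ℂ) (x : Fin n → ℝ) (i : Fin n) :
    fderiv ℝ (Fn P) x (Pi.single i (1 : ℝ)) = Fn (pderiv i P) x := by
  rw [(hasFDerivAt_Fn P x).fderiv, Dv_apply, Finset.sum_eq_single i]
  · simp
  · intro j _ hj
    simp [hj]
  · intro h; exact absurd (Finset.mem_univ i) h

theorem contDiff_Fn (P : MvPolynomial (Fin n) ℂ) (r : WithTop ℕ∞) : ContDiff ℝ r (Fn P) := by
  induction P using MvPolynomial.induction_on with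
  | C a =>
    have h1 : Fn (C a : MvPolynomial (Fin n) ℂ) = fun _ => a := by
      funext y; simp [Fn]
    rw [h1]
    exact contDiff_const
  | add P Q hP hQ =>
    have h1 : Fn (P + Q) = fun y => Fn P y + Fn Q y := funext fun y => Fn_add P Q y
    rw [h1]
    exact hP.add hQ
  | mul_X P j hP =>
    have h1 : Fn (P * X j) = fun y => Fn P y * ((y j : ℝ) : ℂ) := by
      funext y; simp [Fn]
    rw [h1]
    exact hP.mul (Complex.ofRealCLM.comp
        (ContinuousLinearMap.proj (R := ℝ) (φ := fun _ : Fin n => ℝ) j)).contDiff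

/-- iterated partial derivatives -/
noncomputable def DD : (k : ℕ) → (Fin k → Fin n) → MvPolynomial (Fin n) ℂ → MvPolynomial (Fin n) ℂ
  | 0, _, P => P
  | k + 1, w, P => pderiv (w 0) (DD k (fun l => w l.succ) P)

theorem iter_Fn (P : MvPolynomial (Fin n) ℂ) :
    ∀ (k : ℕ) (w : Fin k → Fin n) (x : Fin n → ℝ),
      iteratedFDeriv ℝ k (Fn P) x (fun l => Pi.single (w l) (1 : ℝ)) = Fn (DD k w P) x := by
  intro k
  induction k with
  | zero => intro w x; simp [DD]
  | succ k ih =>
    intro w x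
    rw [iteratedFDeriv_succ_apply_left]
    have hd : DifferentiableAt ℝ (iteratedFDeriv ℝ k (Fn P)) x := by
      have h := contDiff_Fn P ((k : WithTop ℕ∞) + 1)
      exact (h.differentiable_iteratedFDeriv (by
        exact_mod_cast (Nat.lt_succ_self k))) x
    rw [← fderiv_continuousMultilinear_apply_const_apply hd]
    have h2 : (fun y => (iteratedFDeriv ℝ k (Fn P) y)
        (Fin.tail fun l : Fin (k + 1) => (Pi.single (w l) (1 : ℝ) : Fin n → ℝ))) =
        Fn (DD k (fun l => w l.succ) P) := by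
      funext y
      exact ih (fun l => w l.succ) y
    rw [h2]
    exact fderiv_Fn_single _ _ _

theorem DD_add (k : ℕ) (w : Fin k → Fin n) (P Q : MvPolynomial (Fin n) ℂ) :
    DD k w (P + Q) = DD k w P + DD k w Q := by
  induction k with
  | zero => rfl
  | succ k ih => simp only [DD]; rw [ih, map_add]

theorem DD_C_mul (k : ℕ) (w : Fin k → Fin n) (a : ℂ) (P : MvPolynomial (Fin n) ℂ) :
    DD k w (C a * P) = C a * DD k w P := by
  induction k with
  | zero => rfl
  | succ k ih => simp only [DD]; rw [ih, pderiv_C_mul]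

theorem DD_zero (k : ℕ) (w : Fin k → Fin n) : DD k w (0 : MvPolynomial (Fin n) ℂ) = 0 := by
  have := DD_C_mul k w 0 0
  simpa using this

theorem DD_sum {ι : Type*} (s : Finset ι) (k : ℕ) (w : Fin k → Fin n)
    (P : ι → MvPolynomial (Fin n) ℂ) : DD k w (∑ i ∈ s, P i) = ∑ i ∈ s, DD k w (P i) := by
  classical
  induction s using Finset.induction_on with
  | empty => simp [DD_zero]
  | insert i s hi ih => rw [Finset.sum_insert hi, Finset.sum_insert hi, DD_add, ih]

/-- multiplicities of a word -/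
noncomputable def cnt {k : ℕ} (w : Fin k → Fin n) : Fin n →₀ ℕ := ∑ l, Finsupp.single (w l) 1

theorem DD_monomial (k : ℕ) (w : Fin k → Fin n) (u : Fin n →₀ ℕ) (a : ℂ) :
    DD k w (monomial u a) =
      monomial (u - cnt w) (a * ∏ i, (((u i).descFactorial (cnt w i) : ℕ) : ℂ)) := by
  induction k with
  | zero => simp [DD, cnt]
  | succ k ih =>
    simp only [DD]
    rw [ih, pderiv_monomial]
    have hc : cnt w = Finsupp.single (w 0) 1 + cnt (fun l : Fin k => w l.succ) := by
      unfold cnt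
      rw [Fin.sum_univ_succ]
    rw [hc]
    generalize cnt (fun l : Fin k => w l.succ) = α
    generalize w 0 = i₀
    have h1 : ∀ i, (((u i).descFactorial
        ((Finsupp.single i₀ 1 + α : Fin n →₀ ℕ) i) : ℕ) : ℂ) =
        (((u i).descFactorial (α i) : ℕ) : ℂ) * (if i = i₀ then (((u - α) i₀ : ℕ) : ℂ) else 1) := by
      intro i
      rw [Finsupp.add_apply]
      by_cases hi : i = i₀
      · subst hi
        rw [Finsupp.single_eq_same, if_pos rfl, add_comm, Nat.descFactorial_succ, Nat.cast_mul,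
          mul_comm, Finsupp.tsub_apply]
      · rw [Finsupp.single_apply, if_neg (Ne.symm hi), if_neg hi, zero_add, mul_one]
    have h2 : u - α - Finsupp.single i₀ 1 = u - (Finsupp.single i₀ 1 + α) := by
      rw [add_comm, tsub_add_eq_tsub_tsub]
    have h3 : a * (∏ i, (((u i).descFactorial (α i) : ℕ) : ℂ)) * (((u - α) i₀ : ℕ) : ℂ) =
        a * ∏ i, (((u i).descFactorial ((Finsupp.single i₀ 1 + α : Fin n →₀ ℕ) i) : ℕ) : ℂ) := by
      rw [Finset.prod_congr rfl fun i _ => h1 i, Finset.prod_mul_distrib,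
        Finset.prod_ite_eq' Finset.univ i₀, if_pos (Finset.mem_univ i₀)]
      ring
    rw [h2, h3]

end Pool.Agent.W249.SM
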