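import Mathlib
import Pool.Agent.W249.SM.RA1

/-!
# SM-RA, part 2: the functional equation at natural numbers as an identity of polynomials
-/

set_option autoImplicit false

namespace Pool.Agent.W249.SM

open MvPolynomial Pool.Agent.W426.SM

variable {n k : ℕ}

/-- exponent vector as a finitely supported function -/
noncomputable def toF (a : Fin n → ℕ) : Fin n →₀ ℕ := Finsupp.equivFunOnFinite.symm a

@[simp] theorem toF_apply (a : Fin n → ℕ) (i : Fin n) : toF a i = a i := rfl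

theorem prodX (a : Fin n → ℕ) :
    (∏ i, (X i : MvPolynomial (Fin n) ℂ) ^ a i) = monomial (toF a) 1 := by
  rw [monomial_eq, C_1, one_mul, Finsupp.prod_fintype _ _ fun i => pow_zero _]
  rfl

/-- `∑ c_j x ^ m_j` over the complex numbers -/
noncomputable def gC (m : Fin k → Fin n → ℕ) (c : Fin k → ℚ) : MvPolynomial (Fin n) ℂ :=
  ∑ j, monomial (toF (m j)) ((c j : ℚ) : ℂ)

/-- the polynomial over the complex numbers -/
noncomputable def fC (A : Fin n → ℕ) (m : Fin k → Fin n → ℕ) (c : Fin k → ℚ) (e : ℕ) :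
    MvPolynomial (Fin n) ℂ := monomial (toF A) 1 * gC m c ^ e

theorem map_spoly (A : Fin n → ℕ) (m : Fin k → Fin n → ℕ) (c : Fin k → ℚ) (e : ℕ) :
    MvPolynomial.map (algebraMap ℚ ℂ) (spoly A m c e) = fC A m c e := by
  unfold spoly fC gC
  rw [map_mul, map_pow, map_prod, map_sum, ← prodX]
  congr 1
  · refine Finset.prod_congr rfl fun i _ => ?_
    rw [map_pow, map_X]
  · congr 1
    refine Finset.sum_congr rfl fun j _ => ?_
    rw [map_mul, map_C, map_prod]
    have h : ∀ i, MvPolynomial.map (algebraMap ℚ ℂ) (X i ^ m j i : MvPolynomial (Fin n) ℚ) =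
        X i ^ m j i := fun i => by rw [map_pow, map_X]
    rw [Finset.prod_congr rfl fun i _ => h i, prodX, C_mul_monomial, mul_one]
    rfl

/-- the real polynomial function -/
noncomputable def fr (A : Fin n → ℕ) (m : Fin k → Fin n → ℕ) (c : Fin k → ℚ) (e : ℕ)
    (x : Fin n → ℝ) : ℝ := MvPolynomial.eval₂ (algebraMap ℚ ℝ) x (spoly A m c e)

theorem Fn_fC (A : Fin n → ℕ) (m : Fin k → Fin n → ℕ) (c : Fin k → ℚ) (e : ℕ) (x : Fin n → ℝ) :
    Fn (fC A m c e) x = ((fr A m c e x : ℝ) : ℂ) := by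
  rw [← map_spoly]
  unfold Fn fr
  rw [eval_map]
  have h := MvPolynomial.hom_eval₂ (spoly A m c e) (algebraMap ℚ ℝ) Complex.ofRealHom x
  have h2 : Complex.ofRealHom.comp (algebraMap ℚ ℝ) = algebraMap ℚ ℂ := Subsingleton.elim _ _
  rw [h2] at h
  exact h.symm

theorem fr_continuous (A : Fin n → ℕ) (m : Fin k → Fin n → ℕ) (c : Fin k → ℚ) (e : ℕ) :
    Continuous (fr A m c e) := by
  have h := (contDiff_Fn (fC A m c e) 0).continuous
  have h2 : fr A m c e = fun x => (Fn (fC A m c e) x).re := by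
    funext x
    rw [Fn_fC, Complex.ofReal_re]
  rw [h2]
  exact Complex.continuous_re.comp h

theorem Fn_C_mul (a : ℂ) (P : MvPolynomial (Fin n) ℂ) (y : Fin n → ℝ) :
    Fn (C a * P) y = a * Fn P y := by simp [Fn]

theorem Fn_pow (P : MvPolynomial (Fin n) ℂ) (N : ℕ) (y : Fin n → ℝ) :
    Fn (P ^ N) y = Fn P y ^ N := by simp [Fn]

/-- specialisation of `s` to a natural number -/
noncomputable def spec (N : ℕ) (P : MvPolynomial (Option (Fin n)) ℂ) : MvPolynomial (Fin n) ℂ :=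
  MvPolynomial.aeval (fun o => Option.elim o (C (N : ℂ)) X) P

theorem Fn_spec (N : ℕ) (P : MvPolynomial (Option (Fin n)) ℂ) (x : Fin n → ℝ) :
    Fn (spec N P) x = MvPolynomial.eval
      (fun o => Option.elim o (N : ℂ) (fun i => ((x i : ℝ) : ℂ))) P := by
  unfold Fn spec
  induction P using MvPolynomial.induction_on with
  | C a => simp
  | add P Q hP hQ => rw [map_add, map_add, map_add, hP, hQ]
  | mul_X P o hP =>
    rw [map_mul, map_mul, map_mul, hP, aeval_X, eval_X]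
    congr 1
    cases o with
    | none => simp
    | some i => simp

/-- near a nonzero of `f`, the absolute value is `σ f` -/
theorem exists_sign (A : Fin n → ℕ) (m : Fin k → Fin n → ℕ) (c : Fin k → ℚ) (e : ℕ)
    (x : Fin n → ℝ) (hx : fr A m c e x ≠ 0) :
    ∃ σ : ℂ, σ ≠ 0 ∧ ∀ᶠ y in nhds x, ((|fr A m c e y| : ℝ) : ℂ) = σ * ((fr A m c e y : ℝ) : ℂ) := by
  rcases lt_or_gt_of_ne hx with h | h
  · refine ⟨-1, by norm_num, ?_⟩
    filter_upwards [(fr_continuous A m c e).continuousAt.eventually_lt_const h] with y hy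
    rw [abs_of_neg hy]; push_cast; ring
  · refine ⟨1, by norm_num, ?_⟩
    filter_upwards [(fr_continuous A m c e).continuousAt.eventually_const_lt h] with y hy
    rw [abs_of_pos hy]; ring

theorem iter_abs (A : Fin n → ℕ) (m : Fin k → Fin n → ℕ) (c : Fin k → ℚ) (e : ℕ)
    (x : Fin n → ℝ) (σ : ℂ)
    (hσ : ∀ᶠ y in nhds x, ((|fr A m c e y| : ℝ) : ℂ) = σ * ((fr A m c e y : ℝ) : ℂ))
    (N r : ℕ) (w : Fin r → Fin n) :
    iteratedFDeriv ℝ r (fun y : Fin n → ℝ => ((fr A m c e y : ℝ) : ℂ) *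
      ((|fr A m c e y| : ℝ) : ℂ) ^ (N : ℂ)) x (fun l => Pi.single (w l) (1 : ℝ)) =
      σ ^ N * Fn (DD r w (fC A m c e ^ (N + 1))) x := by
  have h1 : (fun y : Fin n → ℝ => ((fr A m c e y : ℝ) : ℂ) *
      ((|fr A m c e y| : ℝ) : ℂ) ^ (N : ℂ)) =ᶠ[nhds x] Fn (C (σ ^ N) * fC A m c e ^ (N + 1)) := by
    filter_upwards [hσ] with y hy
    rw [Complex.cpow_natCast, hy, Fn_C_mul, Fn_pow, Fn_fC]
    ring
  rw [(h1.iteratedFDeriv (𝕜 := ℝ) r).self_of_nhds, iter_Fn, DD_C_mul, Fn_C_mul]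

/-- a complex polynomial vanishing at all real points is zero -/
theorem eq_zero_of_Fn (P : MvPolynomial (Fin n) ℂ) (h : ∀ x, Fn P x = 0) : P = 0 := by
  have hinf : ∀ _i : Fin n, (Set.range (fun r : ℝ => (r : ℂ))).Infinite := fun _ =>
    Set.infinite_range_of_injective Complex.ofReal_injective
  refine MvPolynomial.funext_set (fun _ => Set.range (fun r : ℝ => (r : ℂ))) hinf ?_
  intro x hx
  choose y hy using fun i => hx i (Set.mem_univ i)
  have h1 : (fun i => ((y i : ℝ) : ℂ)) = x := funext hy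
  have h2 := h y
  unfold Fn at h2
  rw [h1] at h2
  rw [h2, map_zero]

/-- the functional equation at natural numbers -/
theorem poly_identity (A : Fin n → ℕ) (m : Fin k → Fin n → ℕ) (c : Fin k → ℚ) (e : ℕ)
    (hf : fC A m c e ≠ 0) (b : Polynomial ℂ) (M : ℕ)
    (cc : Fin M → MvPolynomial (Option (Fin n)) ℂ) (kk : Fin M → ℕ)
    (w : (j : Fin M) → Fin (kk j) → Fin n)
    (hb : ∀ (s : ℂ) (x : Fin n → ℝ),
      MvPolynomial.eval₂ (algebraMap ℚ ℝ) x (spoly A m c e) ≠ 0 →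
      ∑ j, MvPolynomial.eval (fun o => Option.elim o s (fun i => ((x i : ℝ) : ℂ))) (cc j) *
        iteratedFDeriv ℝ (kk j)
          (fun y : Fin n → ℝ =>
            ((MvPolynomial.eval₂ (algebraMap ℚ ℝ) y (spoly A m c e) : ℝ) : ℂ) *
              ((|MvPolynomial.eval₂ (algebraMap ℚ ℝ) y (spoly A m c e)| : ℝ) : ℂ) ^ s)
          x (fun l => Pi.single (w j l) (1 : ℝ))
      = b.eval s * ((|MvPolynomial.eval₂ (algebraMap ℚ ℝ) x (spoly A m c e)| : ℝ) : ℂ) ^ s)
    (N : ℕ) :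
    ∑ j, spec N (cc j) * DD (kk j) (w j) (fC A m c e ^ (N + 1)) =
      C (b.eval (N : ℂ)) * fC A m c e ^ N := by
  have h1 : ∀ x : Fin n → ℝ, Fn ((∑ j, spec N (cc j) * DD (kk j) (w j) (fC A m c e ^ (N + 1)) -
      C (b.eval (N : ℂ)) * fC A m c e ^ N) * fC A m c e) x = 0 := by
    intro x
    rw [Fn_mul]
    by_cases hx : fr A m c e x = 0
    · rw [Fn_fC, hx]; simp
    obtain ⟨σ, hσ0, hσ⟩ := exists_sign A m c e x hx
    have h2 := hb N x hx
    have h3 : ∀ j, MvPolynomial.eval (fun o => Option.elim o (N : ℂ)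
        (fun i => ((x i : ℝ) : ℂ))) (cc j) *
        iteratedFDeriv ℝ (kk j)
          (fun y : Fin n → ℝ =>
            ((MvPolynomial.eval₂ (algebraMap ℚ ℝ) y (spoly A m c e) : ℝ) : ℂ) *
              ((|MvPolynomial.eval₂ (algebraMap ℚ ℝ) y (spoly A m c e)| : ℝ) : ℂ) ^ (N : ℂ))
          x (fun l => Pi.single (w j l) (1 : ℝ)) =
        σ ^ N * Fn (spec N (cc j) * DD (kk j) (w j) (fC A m c e ^ (N + 1))) x := by
      intro j
      have h4 := iter_abs A m c e x σ hσ N (kk j) (w j)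
      unfold fr at h4
      rw [h4, Fn_mul, Fn_spec]
      ring
    rw [Finset.sum_congr rfl fun j _ => h3 j, ← Finset.mul_sum] at h2
    have h5 : ((|MvPolynomial.eval₂ (algebraMap ℚ ℝ) x (spoly A m c e)| : ℝ) : ℂ) ^ (N : ℂ) =
        σ ^ N * Fn (fC A m c e ^ N) x := by
      have h6 := hσ.self_of_nhds
      unfold fr at h6
      rw [Complex.cpow_natCast, h6, mul_pow, Fn_pow, Fn_fC]
      rfl
    rw [h5] at h2
    have h7 : ∑ j, Fn (spec N (cc j) * DD (kk j) (w j) (fC A m c e ^ (N + 1))) x =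
        b.eval (N : ℂ) * Fn (fC A m c e ^ N) x := by
      have h8 : σ ^ N ≠ 0 := pow_ne_zero _ hσ0
      apply mul_left_cancel₀ h8
      rw [h2]; ring
    have h9 : Fn (∑ j, spec N (cc j) * DD (kk j) (w j) (fC A m c e ^ (N + 1)) -
        C (b.eval (N : ℂ)) * fC A m c e ^ N) x = 0 := by
      have h10 : Fn (∑ j, spec N (cc j) * DD (kk j) (w j) (fC A m c e ^ (N + 1)) -
        C (b.eval (N : ℂ)) * fC A m c e ^ N) x =
        ∑ j, Fn (spec N (cc j) * DD (kk j) (w j) (fC A m c e ^ (N + 1))) x -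
          Fn (C (b.eval (N : ℂ)) * fC A m c e ^ N) x := by
        unfold Fn
        rw [map_sub, map_sum]
      rw [h10, h7, Fn_C_mul, sub_self]
    rw [h9, zero_mul]
  have h2 := eq_zero_of_Fn _ h1
  rcases mul_eq_zero.mp h2 with h3 | h3
  · exact sub_eq_zero.mp h3
  · exact absurd h3 hf

end Pool.Agent.W249.SM
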