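import Mathlib
import Pool.Agent.W249.SM.RA2

/-!
# SM-RA, part 3: comparison of coefficients
-/

set_option autoImplicit false

namespace Pool.Agent.W249.SM

open MvPolynomial Pool.Agent.W426.SM Finset

variable {n k : ℕ}

/-! ### factorials -/

theorem fac_asc (N e : ℕ) :
    (((N + e).factorial : ℕ) : ℂ) = ((N.factorial : ℕ) : ℂ) * ∏ r ∈ range e, ((N : ℂ) + (r + 1)) := by
  induction e with
  | zero => simp
  | succ e ih =>
    rw [prod_range_succ, ← mul_assoc, ← ih, ← add_assoc, Nat.factorial_succ]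
    push_cast
    ring

theorem desc_cast (u a : ℕ) :
    ((u.descFactorial a : ℕ) : ℂ) = ∏ r ∈ range a, ((u : ℂ) - r) := by
  induction a with
  | zero => simp
  | succ a ih =>
    rw [prod_range_succ, ← ih, Nat.descFactorial_succ, Nat.cast_mul]
    rcases le_or_gt a u with h | h
    · rw [Nat.cast_sub h]; ring
    · rw [Nat.descFactorial_eq_zero_iff_lt.mpr h]; simp

theorem ff_fac (t t' : ℕ) (ω : ℤ) (h : (t' : ℤ) = t - ω) :
    ((t.factorial : ℕ) : ℂ) = ((t'.factorial : ℕ) : ℂ) * ff ω t := by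
  unfold ff
  rcases le_total 0 ω with h0 | h0
  · obtain ⟨a, rfl⟩ := Int.eq_ofNat_of_zero_le h0
    have h1 : (-(a : ℤ)).toNat = 0 := by omega
    rw [h1, Int.toNat_natCast, prod_range_zero, div_one, ← desc_cast]
    have ha : a ≤ t := by omega
    have h2 : t' = t - a := by omega
    rw [h2, ← Nat.factorial_mul_descFactorial ha]
    push_cast
    ring
  · obtain ⟨a, ha⟩ := Int.eq_ofNat_of_zero_le (show 0 ≤ -ω by omega)
    have h1 : ω.toNat = 0 := by omega
    have h2 : (-ω).toNat = a := by omega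
    have h3 : t' = t + a := by omega
    rw [h1, h2, prod_range_zero, h3, fac_asc]
    have h4 : ∏ r ∈ range a, ((t : ℂ) + (r + 1)) ≠ 0 := by
      refine prod_ne_zero_iff.mpr fun r _ => ?_
      exact_mod_cast Nat.succ_ne_zero (t + r)
    field_simp

theorem ff_zero (t : ℕ) (ω : ℤ) (h : (t : ℤ) < ω) : ff ω t = 0 := by
  unfold ff
  have h1 : ∏ r ∈ range ω.toNat, ((t : ℂ) - r) = 0 := by
    refine prod_eq_zero (i := t) (mem_range.mpr (by omega)) (sub_self _)
  rw [h1, zero_div]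

/-! ### expansions -/

/-- the exponent `∑ t_j m_j` -/
noncomputable def Phi (m : Fin k → Fin n → ℕ) (t : Fin k → ℕ) : Fin n →₀ ℕ :=
  ∑ j, t j • toF (m j)

theorem Phi_apply (m : Fin k → Fin n → ℕ) (t : Fin k → ℕ) (i : Fin n) :
    Phi m t i = ∑ j, t j * m j i := by
  unfold Phi
  rw [Finsupp.finsetSum_apply]
  rfl

/-- the coefficient of `x ^ Phi t` -/
noncomputable def KK (c : Fin k → ℚ) (t : Fin k → ℕ) : ℂ :=
  ((Nat.multinomial univ t : ℕ) : ℂ) * ∏ j, ((c j : ℚ) : ℂ) ^ t j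

theorem KK_ne (c : Fin k → ℚ) (hc : ∀ j, c j ≠ 0) (t : Fin k → ℕ) : KK c t ≠ 0 := by
  unfold KK
  refine mul_ne_zero ?_ (prod_ne_zero_iff.mpr fun j _ => pow_ne_zero _ ?_)
  · exact_mod_cast (Nat.multinomial_pos _ _).ne'
  · exact_mod_cast hc j

theorem gC_pow (m : Fin k → Fin n → ℕ) (c : Fin k → ℚ) (M : ℕ) :
    gC m c ^ M = ∑ t ∈ piAntidiag univ M, monomial (Phi m t) (KK c t) := by
  classical
  unfold gC
  rw [sum_pow_eq_sum_piAntidiag]
  refine sum_congr rfl fun t _ => ?_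
  have h1 : ∀ j, (monomial (toF (m j)) ((c j : ℚ) : ℂ)) ^ t j =
      monomial (t j • toF (m j)) (((c j : ℚ) : ℂ) ^ t j) := fun j => monomial_pow
  rw [prod_congr rfl fun j _ => h1 j, ← monomial_sum_prod]
  have h2 : ((Nat.multinomial univ t : ℕ) : MvPolynomial (Fin n) ℂ) =
      C ((Nat.multinomial univ t : ℕ) : ℂ) := by simp
  rw [h2, C_mul_monomial]
  rfl

theorem fC_pow (A : Fin n → ℕ) (m : Fin k → Fin n → ℕ) (c : Fin k → ℚ) (e N : ℕ) :
    fC A m c e ^ N =
      ∑ t ∈ piAntidiag univ (e * N), monomial (N • toF A + Phi m t) (KK c t) := by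
  unfold fC
  rw [mul_pow, ← pow_mul, gC_pow, mul_sum, monomial_pow, one_pow]
  refine sum_congr rfl fun t _ => ?_
  rw [monomial_mul, one_mul]

/-- affine independence for integer combinations -/
theorem aff_unique (m : Fin k → Fin n → ℕ) (hm : AffInd m) (ω ω' : Fin k → ℤ)
    (h1 : ∑ j, ω j = ∑ j, ω' j)
    (h2 : ∀ i, ∑ j, ω j * (m j i : ℤ) = ∑ j, ω' j * (m j i : ℤ)) : ω = ω' := by
  have h := (affineIndependent_iff.mp hm) univ (fun j => ((ω j - ω' j : ℤ) : ℚ)) ?_ ?_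
  · funext j
    have h3 := h j (mem_univ j)
    have h4 : ω j - ω' j = 0 := by exact_mod_cast h3
    linarith
  · have : (univ.sum fun j => ((ω j - ω' j : ℤ) : ℚ)) = ((∑ j, ω j - ∑ j, ω' j : ℤ) : ℚ) := by
      rw [← sum_sub_distrib]; push_cast; rfl
    rw [this, h1]; simp
  · funext i
    have h5 : (∑ j, ((ω j - ω' j : ℤ) : ℚ) • (fun i : Fin n => (m j i : ℚ))) i =
        ((∑ j, ω j * (m j i : ℤ) - ∑ j, ω' j * (m j i : ℤ) : ℤ) : ℚ) := by
      rw [Finset.sum_apply, ← sum_sub_distrib]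
      push_cast
      refine sum_congr rfl fun j _ => ?_
      simp only [Pi.smul_apply, smul_eq_mul]
      ring
    rw [h5, h2 i]; simp

theorem sum_of_mem {t : Fin k → ℕ} {M : ℕ} (h : t ∈ piAntidiag univ M) : ∑ j, t j = M :=
  (mem_piAntidiag.mp h).1

theorem mem_of_sum {t : Fin k → ℕ} {M : ℕ} (h : ∑ j, t j = M) : t ∈ piAntidiag univ M :=
  mem_piAntidiag.mpr ⟨h, fun _ _ => mem_univ _⟩

/-- the right hand side -/
theorem coeff_fC_pow (A : Fin n → ℕ) (m : Fin k → Fin n → ℕ) (hm : AffInd m) (c : Fin k → ℚ)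
    (e N : ℕ) (t : Fin k → ℕ) (ht : t ∈ piAntidiag univ (e * N)) :
    coeff (N • toF A + Phi m t) (fC A m c e ^ N) = KK c t := by
  classical
  rw [fC_pow, coeff_sum, sum_eq_single t]
  · rw [coeff_monomial, if_pos rfl]
  · intro t' ht' hne
    rw [coeff_monomial, if_neg]
    intro h
    apply hne
    have h1 : Phi m t' = Phi m t := add_left_cancel h
    have h2 := aff_unique m hm (fun j => (t' j : ℤ)) (fun j => (t j : ℤ)) ?_ ?_
    · funext j; exact_mod_cast congrFun h2 j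
    · have h3 := sum_of_mem ht
      have h4 := sum_of_mem ht'
      exact_mod_cast h4.trans h3.symm
    · intro i
      have h3 := DFunLike.congr_fun h1 i
      rw [Phi_apply, Phi_apply] at h3
      exact_mod_cast h3
  · intro h; exact absurd ht h

/-- existence of a shift for `(α, β)` -/
def Has (A : Fin n → ℕ) (m : Fin k → Fin n → ℕ) (e : ℕ) (α β : Fin n →₀ ℕ)
    (ω : Fin k → ℤ) : Prop :=
  ∑ j, ω j = -(e : ℤ) ∧ ∀ i, (β i : ℤ) - α i = -(A i : ℤ) + ∑ j, ω j * m j i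

/-- the contribution of one operator monomial -/
noncomputable def SS (A : Fin n → ℕ) (m : Fin k → Fin n → ℕ) (c : Fin k → ℚ) (e N : ℕ)
    (α β v : Fin n →₀ ℕ) : ℂ :=
  ∑ t' ∈ piAntidiag univ (e * (N + 1)),
    if β + (((N + 1) • toF A + Phi m t') - α) = v then
      KK c t' * ∏ i, (((((N + 1) • toF A + Phi m t' : Fin n →₀ ℕ) i).descFactorial (α i) : ℕ) : ℂ)
    else 0

theorem U_apply (A : Fin n → ℕ) (m : Fin k → Fin n → ℕ) (N : ℕ) (t : Fin k → ℕ) (i : Fin n) :
    (N • toF A + Phi m t : Fin n →₀ ℕ) i = N * A i + ∑ j, t j * m j i := by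
  rw [Finsupp.add_apply, Phi_apply, Finsupp.smul_apply, toF_apply, smul_eq_mul]

/-- a nonzero term determines the shift -/
theorem term_has (A : Fin n → ℕ) (m : Fin k → Fin n → ℕ) (e N : ℕ)
    (α β : Fin n →₀ ℕ) (t t' : Fin k → ℕ) (ht : t ∈ piAntidiag univ (e * N))
    (ht' : t' ∈ piAntidiag univ (e * (N + 1)))
    (hα : ∀ i, α i ≤ ((N + 1) • toF A + Phi m t' : Fin n →₀ ℕ) i)
    (hv : β + (((N + 1) • toF A + Phi m t') - α) = N • toF A + Phi m t) :
    Has A m e α β (fun j => (t j : ℤ) - t' j) := by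
  constructor
  · have h3 := sum_of_mem ht
    have h4 := sum_of_mem ht'
    rw [sum_sub_distrib]
    have h5 : (∑ j, (t j : ℤ)) = e * N := by exact_mod_cast h3
    have h6 : (∑ j, (t' j : ℤ)) = e * (N + 1) := by exact_mod_cast h4
    rw [h5, h6]; ring
  · intro i
    have h1 := DFunLike.congr_fun hv i
    have h2 := hα i
    rw [Finsupp.add_apply, Finsupp.tsub_apply, U_apply] at h1
    rw [U_apply] at h1 h2
    have h3 : ((β i : ℤ) + (((N + 1) * A i + ∑ j, t' j * m j i : ℕ) : ℤ) - α i) =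
        ((N * A i + ∑ j, t j * m j i : ℕ) : ℤ) := by
      rw [← h1]
      push_cast [Nat.cast_sub h2]
      ring
    push_cast at h3
    have h4 : ∑ j, ((t j : ℤ) - t' j) * (m j i : ℤ) =
        ∑ j, (t j : ℤ) * (m j i : ℤ) - ∑ j, (t' j : ℤ) * (m j i : ℤ) := by
      rw [← sum_sub_distrib]
      exact sum_congr rfl fun j _ => by ring
    rw [h4]
    linarith

theorem term_zero (A : Fin n → ℕ) (m : Fin k → Fin n → ℕ) (N : ℕ) (α : Fin n →₀ ℕ)
    (t' : Fin k → ℕ) (hα : ¬ ∀ i, α i ≤ ((N + 1) • toF A + Phi m t' : Fin n →₀ ℕ) i) :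
    ∏ i, (((((N + 1) • toF A + Phi m t' : Fin n →₀ ℕ) i).descFactorial (α i) : ℕ) : ℂ) = 0 := by
  push Not at hα
  obtain ⟨i, hi⟩ := hα
  refine prod_eq_zero (mem_univ i) ?_
  rw [Nat.descFactorial_eq_zero_iff_lt.mpr hi]
  simp

theorem SS_not (A : Fin n → ℕ) (m : Fin k → Fin n → ℕ) (c : Fin k → ℚ) (e N : ℕ)
    (α β : Fin n →₀ ℕ) (t : Fin k → ℕ) (ht : t ∈ piAntidiag univ (e * N))
    (h : ¬ ∃ ω, Has A m e α β ω) : SS A m c e N α β (N • toF A + Phi m t) = 0 := by
  unfold SS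
  refine sum_eq_zero fun t' ht' => ?_
  split_ifs with hv
  · by_cases hα : ∀ i, α i ≤ ((N + 1) • toF A + Phi m t' : Fin n →₀ ℕ) i
    · exact absurd ⟨_, term_has A m e N α β t t' ht ht' hα hv⟩ h
    · rw [term_zero A m N α t' hα, mul_zero]
  · rfl

theorem has_unique (A : Fin n → ℕ) (m : Fin k → Fin n → ℕ) (hm : AffInd m) (e : ℕ)
    (α β : Fin n →₀ ℕ) (ω ω' : Fin k → ℤ) (h : Has A m e α β ω) (h' : Has A m e α β ω') :
    ω = ω' := by
  refine aff_unique m hm ω ω' (h.1.trans h'.1.symm) fun i => ?_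
  have h1 := h.2 i
  have h2 := h'.2 i
  linarith

/-- ratio of the coefficients -/
theorem KK_ratio (c : Fin k → ℚ) (hc : ∀ j, c j ≠ 0) (e N : ℕ) (ω : Fin k → ℤ)
    (t t' : Fin k → ℕ) (ht : t ∈ piAntidiag univ (e * N))
    (ht' : t' ∈ piAntidiag univ (e * (N + 1))) (h : ∀ j, (t' j : ℤ) = t j - ω j) :
    KK c t' = KK c t * (∏ j, ((c j : ℚ) : ℂ) ^ (-ω j)) *
      (∏ r ∈ range e, (((e * N : ℕ) : ℂ) + (r + 1))) * ∏ j, ff (ω j) (t j) := by
  have h1 := Nat.multinomial_spec (univ : Finset (Fin k)) t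
  have h2 := Nat.multinomial_spec (univ : Finset (Fin k)) t'
  rw [sum_of_mem ht] at h1
  rw [sum_of_mem ht'] at h2
  have h1' : (∏ j, ((t j).factorial : ℂ)) * ((Nat.multinomial univ t : ℕ) : ℂ) =
      (((e * N).factorial : ℕ) : ℂ) := by exact_mod_cast h1
  have h2' : (∏ j, ((t' j).factorial : ℂ)) * ((Nat.multinomial univ t' : ℕ) : ℂ) =
      (((e * (N + 1)).factorial : ℕ) : ℂ) := by exact_mod_cast h2
  have h3 : (((e * (N + 1)).factorial : ℕ) : ℂ) =
      (((e * N).factorial : ℕ) : ℂ) * ∏ r ∈ range e, (((e * N : ℕ) : ℂ) + (r + 1)) := by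
    rw [mul_add, mul_one, fac_asc]
  have h4 : ∏ j, ((t j).factorial : ℂ) = (∏ j, ((t' j).factorial : ℂ)) * ∏ j, ff (ω j) (t j) := by
    rw [← prod_mul_distrib]
    exact prod_congr rfl fun j _ => ff_fac (t j) (t' j) (ω j) (h j)
  have h5 : (∏ j, ((t' j).factorial : ℂ)) ≠ 0 :=
    prod_ne_zero_iff.mpr fun j _ => by exact_mod_cast (Nat.factorial_ne_zero _)
  have h6 : ((Nat.multinomial univ t' : ℕ) : ℂ) = ((Nat.multinomial univ t : ℕ) : ℂ) *
      (∏ r ∈ range e, (((e * N : ℕ) : ℂ) + (r + 1))) * ∏ j, ff (ω j) (t j) := by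
    apply mul_left_cancel₀ h5
    rw [h2', h3, ← h1', h4]
    ring
  have h7 : ∏ j, ((c j : ℚ) : ℂ) ^ t' j =
      (∏ j, ((c j : ℚ) : ℂ) ^ t j) * ∏ j, ((c j : ℚ) : ℂ) ^ (-ω j) := by
    rw [← prod_mul_distrib]
    refine prod_congr rfl fun j _ => ?_
    have hcj : ((c j : ℚ) : ℂ) ≠ 0 := by exact_mod_cast hc j
    rw [← zpow_natCast, h j, sub_eq_add_neg, zpow_add₀ hcj, zpow_natCast]
  unfold KK
  rw [h6, h7]
  ring

/-- the contribution of an operator monomial with a shift -/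
theorem SS_has (A : Fin n → ℕ) (m : Fin k → Fin n → ℕ) (hm : AffInd m) (c : Fin k → ℚ)
    (hc : ∀ j, c j ≠ 0) (e N : ℕ) (α β : Fin n →₀ ℕ) (t : Fin k → ℕ)
    (ht : t ∈ piAntidiag univ (e * N)) (ω : Fin k → ℤ) (h : Has A m e α β ω) :
    SS A m c e N α β (N • toF A + Phi m t) =
      KK c t * ((∏ j, ((c j : ℚ) : ℂ) ^ (-ω j)) *
        (∏ r ∈ range e, (((e * N : ℕ) : ℂ) + (r + 1))) * (∏ j, ff (ω j) (t j)) *
        ∏ i, ∏ r ∈ range (α i), ((N : ℂ) * A i + ∑ j, (t j : ℂ) * m j i -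
          ((β i : ℂ) - α i) - r)) := by
  classical
  by_cases hω : ∀ j, ω j ≤ t j
  · set t' : Fin k → ℕ := fun j => ((t j : ℤ) - ω j).toNat with ht'def
    have ht'j : ∀ j, (t' j : ℤ) = t j - ω j := fun j => by
      rw [ht'def]; exact Int.toNat_of_nonneg (by linarith [hω j])
    have ht' : t' ∈ piAntidiag univ (e * (N + 1)) := by
      refine mem_of_sum ?_
      have h1 := sum_of_mem ht
      have h2 : (∑ j, (t' j : ℤ)) = e * (N + 1) := by
        rw [sum_congr rfl fun j _ => ht'j j, sum_sub_distrib, h.1]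
        have h3 : (∑ j, (t j : ℤ)) = e * N := by exact_mod_cast h1
        rw [h3]; ring
      exact_mod_cast h2
    -- the exponents
    have hU : ∀ i, ((((N + 1) • toF A + Phi m t' : Fin n →₀ ℕ) i : ℕ) : ℤ) =
        N * A i + ∑ j, (t j : ℤ) * m j i - ((β i : ℤ) - α i) := by
      intro i
      rw [U_apply]
      push_cast
      have h4 : ∑ j, (t' j : ℤ) * (m j i : ℤ) =
          ∑ j, (t j : ℤ) * (m j i : ℤ) - ∑ j, ω j * (m j i : ℤ) := by
        rw [← sum_sub_distrib]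
        exact sum_congr rfl fun j _ => by rw [ht'j]; ring
      have h5 := h.2 i
      rw [h4]
      linarith
    have hUC : ∀ i, ((((N + 1) • toF A + Phi m t' : Fin n →₀ ℕ) i : ℕ) : ℂ) =
        (N : ℂ) * A i + ∑ j, (t j : ℂ) * m j i - ((β i : ℂ) - α i) := by
      intro i
      have := congrArg (fun z : ℤ => (z : ℂ)) (hU i)
      push_cast at this
      exact this
    have hprod : ∏ i, ∏ r ∈ range (α i), ((N : ℂ) * A i + ∑ j, (t j : ℂ) * m j i -
          ((β i : ℂ) - α i) - r) =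
        ∏ i, (((((N + 1) • toF A + Phi m t' : Fin n →₀ ℕ) i).descFactorial (α i) : ℕ) : ℂ) := by
      refine prod_congr rfl fun i _ => ?_
      rw [desc_cast, hUC]
    unfold SS
    rw [sum_eq_single t']
    · rw [hprod]
      by_cases hα : ∀ i, α i ≤ ((N + 1) • toF A + Phi m t' : Fin n →₀ ℕ) i
      · rw [if_pos, KK_ratio c hc e N ω t t' ht ht' ht'j]
        · ring
        · ext i
          rw [Finsupp.add_apply, Finsupp.tsub_apply]
          have h1 := hU i
          have h2 := hα i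
          have h3 : ((N • toF A + Phi m t : Fin n →₀ ℕ) i : ℤ) =
              N * A i + ∑ j, (t j : ℤ) * m j i := by
            rw [U_apply]; push_cast; rfl
          omega
      · rw [term_zero A m N α t' hα]
        simp
    · intro t'' ht'' hne
      split_ifs with hv
      · by_cases hα : ∀ i, α i ≤ ((N + 1) • toF A + Phi m t'' : Fin n →₀ ℕ) i
        · exfalso
          apply hne
          have h1 := has_unique A m hm e α β _ _ (term_has A m e N α β t t'' ht ht'' hα hv) h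
          funext j
          have h2 : (t j : ℤ) - t'' j = ω j := congrFun h1 j
          have h3 := ht'j j
          omega
        · rw [term_zero A m N α t'' hα, mul_zero]
      · rfl
    · intro hh; exact absurd ht' hh
  · push Not at hω
    obtain ⟨j₀, hj₀⟩ := hω
    have h1 : ∏ j, ff (ω j) (t j) = 0 := prod_eq_zero (mem_univ j₀) (ff_zero _ _ hj₀)
    rw [h1]
    unfold SS
    simp only [mul_zero, zero_mul]
    refine sum_eq_zero fun t' ht' => ?_
    split_ifs with hv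
    · by_cases hα : ∀ i, α i ≤ ((N + 1) • toF A + Phi m t' : Fin n →₀ ℕ) i
      · exfalso
        have h1 := has_unique A m hm e α β _ _ (term_has A m e N α β t t' ht ht' hα hv) h
        have h2 : (t j₀ : ℤ) - t' j₀ = ω j₀ := congrFun h1 j₀
        omega
      · rw [term_zero A m N α t' hα, mul_zero]
    · rfl

end Pool.Agent.W249.SM
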