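import Mathlib
import Pool.Agent.W249.SM.RA3

/-!
# SM-RA: the functional equation in terms of the exponents
-/

set_option autoImplicit false

namespace Pool.Agent.W249.SM

open MvPolynomial Pool.Agent.W426.SM Finset

variable {n k : ℕ}

/-! ### the identity at natural numbers -/

theorem spec_expand (N : ℕ) (P : MvPolynomial (Option (Fin n)) ℂ) :
    spec N P = ∑ d ∈ P.support, monomial d.some (coeff d P * (N : ℂ) ^ d none) := by
  unfold spec
  conv_lhs => rw [as_sum P]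
  rw [map_sum]
  refine sum_congr rfl fun d _ => ?_
  rw [aeval_monomial, Finsupp.prod_option_index _ _ (fun _ => pow_zero _)
    (fun _ _ _ => pow_add _ _ _)]
  have h1 : (Finsupp.some d).prod (fun (i : Fin n) (r : ℕ) =>
      (Option.elim (Option.some i) (C (N : ℂ)) X : MvPolynomial (Fin n) ℂ) ^ r) =
      monomial (Finsupp.some d) 1 := by
    rw [monomial_eq, C_1, one_mul]
    rfl
  rw [h1]
  show C (coeff d P) * (C (N : ℂ) ^ d none * monomial (Finsupp.some d) 1) = _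
  rw [← C_pow, C_mul_monomial, C_mul_monomial, mul_one]

theorem DD_fC (A : Fin n → ℕ) (m : Fin k → Fin n → ℕ) (c : Fin k → ℚ) (e N r : ℕ)
    (w : Fin r → Fin n) :
    DD r w (fC A m c e ^ (N + 1)) =
      ∑ t ∈ piAntidiag univ (e * (N + 1)),
        monomial (((N + 1) • toF A + Phi m t) - cnt w)
          (KK c t * ∏ i, (((((N + 1) • toF A + Phi m t : Fin n →₀ ℕ) i).descFactorial
            (cnt w i) : ℕ) : ℂ)) := by
  rw [fC_pow, DD_sum]
  exact sum_congr rfl fun t _ => DD_monomial _ _ _ _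

theorem coeff_lhs (A : Fin n → ℕ) (m : Fin k → Fin n → ℕ) (c : Fin k → ℚ) (e N r : ℕ)
    (w : Fin r → Fin n) (P : MvPolynomial (Option (Fin n)) ℂ) (v : Fin n →₀ ℕ) :
    coeff v (spec N P * DD r w (fC A m c e ^ (N + 1))) =
      ∑ d ∈ P.support, (coeff d P * (N : ℂ) ^ d none) * SS A m c e N (cnt w) d.some v := by
  classical
  rw [spec_expand, sum_mul, coeff_sum]
  refine sum_congr rfl fun d _ => ?_
  rw [DD_fC, mul_sum, coeff_sum]
  unfold SS
  rw [mul_sum]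
  refine sum_congr rfl fun t _ => ?_
  rw [monomial_mul, coeff_monomial]
  split_ifs
  · rfl
  · rw [mul_zero]

theorem fC_ne (A : Fin n → ℕ) (m : Fin k → Fin n → ℕ) (hm : AffInd m) (c : Fin k → ℚ)
    (hc : ∀ j, c j ≠ 0) (hk : 0 < k) (e : ℕ) : fC A m c e ≠ 0 := by
  classical
  intro h0
  have ht : (Pi.single (⟨0, hk⟩ : Fin k) e : Fin k → ℕ) ∈ piAntidiag univ (e * 1) := by
    refine mem_of_sum ?_
    rw [sum_pi_single' (⟨0, hk⟩ : Fin k) e univ]
    simp
  have h1 := coeff_fC_pow A m hm c e 1 _ ht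
  rw [h0] at h1
  simp only [pow_one, coeff_zero] at h1
  exact KK_ne c hc _ h1.symm

/-- the index type of the operator monomials -/
abbrev II (M : ℕ) (cc : Fin M → MvPolynomial (Option (Fin n)) ℂ) : Type :=
  (j : Fin M) × {d // d ∈ (cc j).support}

open Classical in
theorem nat_identity (A : Fin n → ℕ) (m : Fin k → Fin n → ℕ) (hm : AffInd m) (c : Fin k → ℚ)
    (hc : ∀ j, c j ≠ 0) (e : ℕ) (b : Polynomial ℂ) (M : ℕ)
    (cc : Fin M → MvPolynomial (Option (Fin n)) ℂ) (kk : Fin M → ℕ)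
    (w : (j : Fin M) → Fin (kk j) → Fin n)
    (hid : ∀ N : ℕ, ∑ j, spec N (cc j) * DD (kk j) (w j) (fC A m c e ^ (N + 1)) =
      C (b.eval (N : ℂ)) * fC A m c e ^ N)
    (ω : {l : II M cc // ∃ ω, Has A m e (cnt (w l.1)) (Finsupp.some l.2.1) ω} → Fin k → ℤ)
    (hω : ∀ l, Has A m e (cnt (w l.1.1)) (Finsupp.some l.1.2.1) (ω l))
    (N : ℕ) (t : Fin k → ℕ) (ht : t ∈ piAntidiag univ (e * N)) :
    b.eval (N : ℂ) = ∑ l : {l : II M cc // ∃ ω, Has A m e (cnt (w l.1)) (Finsupp.some l.2.1) ω},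
      (coeff l.1.2.1 (cc l.1.1) * (N : ℂ) ^ l.1.2.1 none) *
      ((∏ j, ((c j : ℚ) : ℂ) ^ (-ω l j)) *
        (∏ r ∈ range e, (((e * N : ℕ) : ℂ) + (r + 1))) * (∏ j, ff (ω l j) (t j)) *
        ∏ i, ∏ r ∈ range (cnt (w l.1.1) i), ((N : ℂ) * A i + ∑ j, (t j : ℂ) * m j i -
          ((Finsupp.some l.1.2.1 i : ℂ) - cnt (w l.1.1) i) - r)) := by
  classical
  have h1 := congrArg (coeff (N • toF A + Phi m t)) (hid N)
  rw [coeff_sum, coeff_C_mul, coeff_fC_pow A m hm c e N t ht,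
    sum_congr rfl fun j _ => coeff_lhs A m c e N (kk j) (w j) (cc j) _] at h1
  have h2 : ∑ j, ∑ d ∈ (cc j).support, (coeff d (cc j) * (N : ℂ) ^ d none) *
      SS A m c e N (cnt (w j)) d.some (N • toF A + Phi m t) =
      ∑ l : II M cc, (coeff l.2.1 (cc l.1) * (N : ℂ) ^ l.2.1 none) *
        SS A m c e N (cnt (w l.1)) (Finsupp.some l.2.1) (N • toF A + Phi m t) := by
    rw [Fintype.sum_sigma]
    refine sum_congr rfl fun j _ => ?_
    exact (sum_coe_sort (cc j).support (fun d => (coeff d (cc j) * (N : ℂ) ^ d none) *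
      SS A m c e N (cnt (w j)) d.some (N • toF A + Phi m t))).symm
  rw [h2] at h1
  have h3 := Fintype.sum_subtype_add_sum_subtype
    (fun l : II M cc => ∃ ω, Has A m e (cnt (w l.1)) (Finsupp.some l.2.1) ω)
    (fun l : II M cc => (coeff l.2.1 (cc l.1) * (N : ℂ) ^ l.2.1 none) *
        SS A m c e N (cnt (w l.1)) (Finsupp.some l.2.1) (N • toF A + Phi m t))
  rw [← h3] at h1
  have h4 : ∑ l : {l : II M cc // ¬ ∃ ω, Has A m e (cnt (w l.1)) (Finsupp.some l.2.1) ω},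
      (coeff l.1.2.1 (cc l.1.1) * (N : ℂ) ^ l.1.2.1 none) *
        SS A m c e N (cnt (w l.1.1)) (Finsupp.some l.1.2.1) (N • toF A + Phi m t) = 0 := by
    refine sum_eq_zero fun l _ => ?_
    rw [SS_not A m c e N _ _ t ht l.2, mul_zero]
  rw [h4, add_zero] at h1
  have h5 := KK_ne c hc t
  apply mul_right_cancel₀ h5
  rw [← h1, sum_mul]
  refine sum_congr rfl fun l _ => ?_
  rw [SS_has A m hm c hc e N _ _ t ht (ω l) (hω l)]
  ring

/-! ### polynomial functions -/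

/-- polynomial functions on `ℂ ^ k` -/
def PF (F : (Fin k → ℂ) → ℂ) : Prop := ∃ P : MvPolynomial (Fin k) ℂ, ∀ t, eval t P = F t

theorem PF.const (a : ℂ) : PF (fun _ : Fin k → ℂ => a) := ⟨C a, fun t => eval_C a⟩

theorem PF.coord (j : Fin k) : PF (fun t : Fin k → ℂ => t j) := ⟨X j, fun t => eval_X j⟩

theorem PF.add {F G : (Fin k → ℂ) → ℂ} (hF : PF F) (hG : PF G) : PF (fun t => F t + G t) := by
  obtain ⟨P, hP⟩ := hF
  obtain ⟨Q, hQ⟩ := hG
  exact ⟨P + Q, fun t => by rw [map_add, hP, hQ]⟩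

theorem PF.sub {F G : (Fin k → ℂ) → ℂ} (hF : PF F) (hG : PF G) : PF (fun t => F t - G t) := by
  obtain ⟨P, hP⟩ := hF
  obtain ⟨Q, hQ⟩ := hG
  exact ⟨P - Q, fun t => by rw [map_sub, hP, hQ]⟩

theorem PF.mul {F G : (Fin k → ℂ) → ℂ} (hF : PF F) (hG : PF G) : PF (fun t => F t * G t) := by
  obtain ⟨P, hP⟩ := hF
  obtain ⟨Q, hQ⟩ := hG
  exact ⟨P * Q, fun t => by rw [map_mul, hP, hQ]⟩

theorem PF.sum {ι : Type*} (s : Finset ι) {F : ι → (Fin k → ℂ) → ℂ} (hF : ∀ i, PF (F i)) :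
    PF (fun t => ∑ i ∈ s, F i t) := by
  choose P hP using hF
  exact ⟨∑ i ∈ s, P i, fun t => by rw [map_sum]; exact sum_congr rfl fun i _ => hP i t⟩

theorem PF.prod {ι : Type*} (s : Finset ι) {F : ι → (Fin k → ℂ) → ℂ} (hF : ∀ i, PF (F i)) :
    PF (fun t => ∏ i ∈ s, F i t) := by
  choose P hP using hF
  exact ⟨∏ i ∈ s, P i, fun t => by rw [map_prod]; exact prod_congr rfl fun i _ => hP i t⟩

theorem PF.pow {F : (Fin k → ℂ) → ℂ} (hF : PF F) (r : ℕ) : PF (fun t => F t ^ r) := by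
  obtain ⟨P, hP⟩ := hF
  exact ⟨P ^ r, fun t => by rw [map_pow, hP]⟩

theorem PF.evalPoly {F : (Fin k → ℂ) → ℂ} (hF : PF F) (q : Polynomial ℂ) :
    PF (fun t => q.eval (F t)) := by
  have h : (fun t => q.eval (F t)) =
      fun t => ∑ i ∈ range (q.natDegree + 1), q.coeff i * F t ^ i := by
    funext t
    exact Polynomial.eval_eq_sum_range _
  rw [h]
  exact PF.sum _ fun i => (PF.const _).mul (hF.pow i)

theorem PF.total : PF (fun t : Fin k → ℂ => ∑ j, t j) := PF.sum _ fun j => PF.coord j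

/-- `ff` with the denominator cleared -/
noncomputable def ffp (M₀ : ℕ) (w : ℤ) (x : ℂ) : ℂ :=
  (∏ r ∈ range w.toNat, (x - r)) * ∏ r ∈ Ico (-w).toNat M₀, (x + (r + 1))

theorem ffp_eq (M₀ : ℕ) (w : ℤ) (x : ℂ) (hw : (-w).toNat ≤ M₀) (hx : ∀ r : ℕ, x ≠ -((r : ℂ) + 1)) :
    (∏ r ∈ range M₀, (x + (r + 1))) * ff w x = ffp M₀ w x := by
  unfold ff ffp
  rw [← prod_range_mul_prod_Ico (fun r : ℕ => x + ((r : ℂ) + 1)) hw]
  have h : ∏ r ∈ range (-w).toNat, (x + ((r : ℂ) + 1)) ≠ 0 := by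
    refine prod_ne_zero_iff.mpr fun r _ h0 => hx r ?_
    exact eq_neg_of_add_eq_zero_left h0
  field_simp

theorem eq_of_PF {F G : (Fin k → ℂ) → ℂ} (hF : PF F) (hG : PF G) (e : ℕ) (he : 0 < e)
    (h : ∀ t : Fin k → ℕ, F (fun j => ((e * t j : ℕ) : ℂ)) = G (fun j => ((e * t j : ℕ) : ℂ))) :
    F = G := by
  obtain ⟨P, hP⟩ := hF
  obtain ⟨Q, hQ⟩ := hG
  have hinf : ∀ _j : Fin k, (Set.range (fun r : ℕ => ((e * r : ℕ) : ℂ))).Infinite := fun _ => by
    refine Set.infinite_range_of_injective fun a b hab => ?_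
    have h1 : e * a = e * b := by exact_mod_cast hab
    exact Nat.eq_of_mul_eq_mul_left he h1
  have hPQ : P = Q := by
    refine MvPolynomial.funext_set (fun _ => Set.range (fun r : ℕ => ((e * r : ℕ) : ℂ))) hinf ?_
    intro x hx
    choose y hy using fun i => hx i (Set.mem_univ i)
    have h1 : (fun j => ((e * y j : ℕ) : ℂ)) = x := funext hy
    rw [hP, hQ, ← h1]
    exact h y
  funext t
  rw [← hP, ← hQ, hPQ]

/-! ### the main theorem -/

theorem main : Pool.Agent.W426.SM.S_RA := by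
  classical
  intro n k A m c e hm hc hk he b hb
  obtain ⟨M, cc, kk, w, hbs⟩ := hb
  have hid := poly_identity A m c e (fC_ne A m hm c hc hk e) b M cc kk w hbs
  have hex : ∀ l : {l : II M cc // ∃ ω, Has A m e (cnt (w l.1)) (Finsupp.some l.2.1) ω},
      ∃ ω, Has A m e (cnt (w l.1.1)) (Finsupp.some l.1.2.1) ω := fun l => l.2
  choose ω hω using hex
  have hnat := nat_identity A m hm c hc e b M cc kk w hid ω hω
  -- the index type
  let J := {l : II M cc // ∃ ω, Has A m e (cnt (w l.1)) (Finsupp.some l.2.1) ω}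
  let E : J ≃ Fin (Fintype.card J) := Fintype.equivFin J
  let α : J → Fin n → ℕ := fun l i => cnt (w l.1.1) i
  let β : J → Fin n → ℕ := fun l i => Finsupp.some l.1.2.1 i
  let q : J → Polynomial ℂ := fun l =>
    Polynomial.C (coeff l.1.2.1 (cc l.1.1) * ∏ j, ((c j : ℚ) : ℂ) ^ (-ω l j)) *
      Polynomial.X ^ (l.1.2.1 none)
  have hq : ∀ (l : J) (x : ℂ), (q l).eval x =
      (coeff l.1.2.1 (cc l.1.1) * ∏ j, ((c j : ℚ) : ℂ) ^ (-ω l j)) * x ^ (l.1.2.1 none) := by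
    intro l x
    simp only [q, Polynomial.eval_mul, Polynomial.eval_C, Polynomial.eval_pow, Polynomial.eval_X]
  have heC : (e : ℂ) ≠ 0 := by exact_mod_cast he.ne'
  -- the bound for the denominators
  let M₀ : ℕ := ∑ l : J, ∑ j, (-(ω l j)).toNat
  have hM₀ : ∀ (l : J) j, (-(ω l j)).toNat ≤ M₀ := by
    intro l j
    calc (-(ω l j)).toNat ≤ ∑ j, (-(ω l j)).toNat :=
          single_le_sum (f := fun j => (-(ω l j)).toNat) (fun _ _ => Nat.zero_le _) (mem_univ j)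
      _ ≤ M₀ := single_le_sum (f := fun l : J => ∑ j, (-(ω l j)).toNat)
          (fun _ _ => Nat.zero_le _) (mem_univ l)
  let Dn : (Fin k → ℂ) → ℂ := fun t => ∏ j, ∏ r ∈ range M₀, (t j + ((r : ℂ) + 1))
  let tail : J → (Fin k → ℂ) → ℂ := fun l t =>
    ∏ i, ∏ r ∈ range (α l i), ((∑ j, t j) / e * A i + ∑ j, t j * m j i -
      ((β l i : ℂ) - α l i) - r)
  let F : (Fin k → ℂ) → ℂ := fun t => Dn t * b.eval ((∑ j, t j) / e)
  let G : (Fin k → ℂ) → ℂ := fun t => ∑ l : J, (q l).eval ((∑ j, t j) / e) *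
    (∏ r ∈ range e, ((∑ j, t j) + ((r : ℂ) + 1))) * (∏ j, ffp M₀ (ω l j) (t j)) * tail l t
  have hS : PF (fun t : Fin k → ℂ => (∑ j, t j) / e) := by
    have : (fun t : Fin k → ℂ => (∑ j, t j) / (e : ℂ)) = fun t => (∑ j, t j) * (e : ℂ)⁻¹ := by
      funext t; rw [div_eq_mul_inv]
    rw [this]
    exact PF.total.mul (PF.const _)
  have hDn : PF Dn := PF.prod _ fun j => PF.prod _ fun r => (PF.coord j).add (PF.const _)
  have hF : PF F := hDn.mul (hS.evalPoly b)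
  have hG : PF G := by
    refine PF.sum _ fun l => ?_
    refine PF.mul (PF.mul (PF.mul (hS.evalPoly _) (PF.prod _ fun r => PF.total.add (PF.const _)))
      (PF.prod _ fun j => ?_)) (PF.prod _ fun i => PF.prod _ fun r => ?_)
    · exact PF.mul (PF.prod _ fun r => (PF.coord j).sub (PF.const _))
        (PF.prod _ fun r => (PF.coord j).add (PF.const _))
    · exact (((hS.mul (PF.const _)).add (PF.sum _ fun j => (PF.coord j).mul (PF.const _))).sub
        (PF.const _)).sub (PF.const _)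
  -- replacing `ffp` by `ff`
  have hrep : ∀ t : Fin k → ℂ, (∀ (j : Fin k) (r : ℕ), t j ≠ -((r : ℂ) + 1)) →
      G t = Dn t * ∑ l : J, (q l).eval ((∑ j, t j) / e) *
        (∏ r ∈ range e, ((∑ j, t j) + ((r : ℂ) + 1))) * (∏ j, ff (ω l j) (t j)) * tail l t := by
    intro t ht
    show ∑ l : J, _ = _
    rw [mul_sum]
    refine sum_congr rfl fun l _ => ?_
    have h1 : ∏ j, ffp M₀ (ω l j) (t j) = Dn t * ∏ j, ff (ω l j) (t j) := by
      show _ = (∏ j, _) * _
      rw [← prod_mul_distrib]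
      exact prod_congr rfl fun j _ => (ffp_eq M₀ (ω l j) (t j) (hM₀ l j) (ht j)).symm
    rw [h1]
    ring
  have hFG : F = G := by
    refine eq_of_PF hF hG e he fun t => ?_
    have hsum : (∑ j, ((e * t j : ℕ) : ℂ)) = ((e * ∑ j, t j : ℕ) : ℂ) := by
      rw [mul_sum]; push_cast; rfl
    have hdiv : (∑ j, ((e * t j : ℕ) : ℂ)) / (e : ℂ) = ((∑ j, t j : ℕ) : ℂ) := by
      rw [hsum, Nat.cast_mul, mul_div_cancel_left₀ _ heC]
    rw [hrep]
    · show Dn _ * _ = _
      congr 1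
      have h1 := hnat (∑ j, t j) (fun j => e * t j) (mem_of_sum (by rw [← mul_sum]))
      rw [hdiv, h1]
      refine sum_congr rfl fun l _ => ?_
      rw [hq]
      show _ = _ * _ * _ * ∏ i, ∏ r ∈ range (α l i), (((∑ j, ((e * t j : ℕ) : ℂ)) / (e : ℂ)) * A i +
        ∑ j, ((e * t j : ℕ) : ℂ) * m j i - ((β l i : ℂ) - α l i) - r)
      rw [hdiv, hsum]
      ring
    · intro j r h0
      have h1 : ((e * t j : ℕ) : ℂ) + ((r : ℂ) + 1) = 0 := by rw [h0]; ring
      have h2 : ((e * t j + (r + 1) : ℕ) : ℂ) = 0 := by push_cast; push_cast at h1; exact h1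
      have h3 : e * t j + (r + 1) = 0 := by exact_mod_cast h2
      omega
  -- conclusion
  refine ⟨Fintype.card J, fun l => q (E.symm l), fun l => ω (E.symm l), fun l => α (E.symm l),
    fun l => β (E.symm l), fun l => (hω (E.symm l)).1, fun l i => (hω (E.symm l)).2 i, ?_⟩
  intro t ht
  have h1 : F t = G t := congrFun hFG t
  rw [hrep t ht] at h1
  have hD : Dn t ≠ 0 := by
    refine prod_ne_zero_iff.mpr fun j _ => prod_ne_zero_iff.mpr fun r _ h0 => ht j r ?_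
    exact eq_neg_of_add_eq_zero_left h0
  have h2 := mul_left_cancel₀ hD h1
  rw [h2]
  exact (Equiv.sum_comp E.symm (fun l : J => (q l).eval ((∑ j, t j) / e) *
        (∏ r ∈ range e, ((∑ j, t j) + ((r : ℂ) + 1))) * (∏ j, ff (ω l j) (t j)) * tail l t)).symm

end Pool.Agent.W249.SM
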